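import Mathlib

/-!
# Coarse embeddings of groups

`CoarseEmb f`: the map `f : A → Λ` of groups is a coarse embedding (for the left invariant coarse structures).
-/

set_option autoImplicit false

namespace Pool.Agent.H10.CI

/-- the map `f` (not necessarily a homomorphism) of groups is a coarse embedding: for `a ∈ A` the elements
`f(g)⁻¹ f(g a)` are finitely many, and for `x ∈ Λ` there are only finitely many `a` such that
`f(g)⁻¹ f(g a) = x` for some `g` -/
structure CoarseEmb {A Λ : Type} [Group A] [Group Λ] (f : A → Λ) : Prop where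
  lip : ∀ a : A, {x : Λ | ∃ g : A, (f g)⁻¹ * f (g * a) = x}.Finite
  prop : ∀ x : Λ, {a : A | ∃ g : A, (f g)⁻¹ * f (g * a) = x}.Finite

theorem CoarseEmb.prop_fin {A Λ : Type} [Group A] [Group Λ] {f : A → Λ} (hf : CoarseEmb f)
    {E : Set Λ} (hE : E.Finite) : {a : A | ∃ g : A, (f g)⁻¹ * f (g * a) ∈ E}.Finite := by
  have h1 : {a : A | ∃ g : A, (f g)⁻¹ * f (g * a) ∈ E} ⊆
      ⋃ x ∈ E, {a : A | ∃ g : A, (f g)⁻¹ * f (g * a) = x} := by
    rintro a ⟨g, hg⟩
    exact Set.mem_biUnion hg ⟨g, rfl⟩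
  exact (hE.biUnion fun x _ => hf.prop x).subset h1

end Pool.Agent.H10.CI
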