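import Pool.Agent.H10.CI.Int

/-!
# Coarse embeddings: subgroups of finite index and geometric actions

`exists_ce_index`: a group is coarsely embedded into each of its subgroups of finite index.
`exists_ce_geom`: let the group `Λ` act on the set `A` with finitely many orbits and finite stabilizers, such that
the relation `a⁻¹ b ∈ S` is preserved for a finite generating set `S` of the group `A` (a geometric action on a Cayley
graph of `A`); then `A` is coarsely embedded into `Λ`.
-/

set_option autoImplicit false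

open Finset Pointwise

namespace Pool.Agent.H10.CI

/-- a group is coarsely embedded into each of its subgroups of finite index -/
theorem exists_ce_index {A : Type} [Group A] (P : Subgroup A) [P.FiniteIndex] :
    ∃ f : A → P, CoarseEmb f := by
  classical
  -- representatives of the right cosets
  let r : A → A := fun g => (Quotient.out (QuotientGroup.mk g⁻¹ : A ⧸ P))⁻¹
  have hr : ∀ g, g * (r g)⁻¹ ∈ P := by
    intro g
    have h1 : (QuotientGroup.mk (Quotient.out (QuotientGroup.mk g⁻¹ : A ⧸ P)) : A ⧸ P) =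
        QuotientGroup.mk g⁻¹ := Quotient.out_eq _
    have h2 := QuotientGroup.eq.1 h1
    have h3 := P.inv_mem h2
    simpa [r, mul_inv_rev] using h3
  have hR : (Set.range r).Finite := by
    have h1 : Set.range r ⊆ Set.range (fun q : A ⧸ P => (Quotient.out q)⁻¹) := by
      rintro x ⟨g, rfl⟩
      exact ⟨_, rfl⟩
    exact (Set.finite_range _).subset h1
  refine ⟨fun g => ⟨g * (r g)⁻¹, hr g⟩, fun a => ?_, fun x => ?_⟩
  · refine Set.Finite.of_finite_image ?_ (Subtype.val_injective (p := (· ∈ P))).injOn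
    refine (hR.image2 (fun b c => b * a * c⁻¹) hR).subset ?_
    rintro y ⟨x, ⟨g, rfl⟩, rfl⟩
    refine ⟨r g, ⟨g, rfl⟩, r (g * a), ⟨g * a, rfl⟩, ?_⟩
    simp only [Subgroup.coe_mul, InvMemClass.coe_inv]
    group
  · refine (hR.image2 (fun b c => b⁻¹ * (x : A) * c) hR).subset ?_
    rintro a ⟨g, hg⟩
    refine ⟨r g, ⟨g, rfl⟩, r (g * a), ⟨g * a, rfl⟩, ?_⟩
    have h1 := congrArg Subtype.val hg
    simp only [Subgroup.coe_mul, InvMemClass.coe_inv] at h1
    dsimp only
    rw [← h1]
    group

/-- the balls of the word metric -/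
private def ball {A : Type} [Group A] (S : Set A) : ℕ → Set A
  | 0 => {1}
  | m + 1 => ball S m ∪ Set.image2 (· * ·) (ball S m) S

private theorem ball_mono {A : Type} [Group A] (S : Set A) {m m' : ℕ} (h : m ≤ m') :
    ball S m ⊆ ball S m' := by
  induction h with
  | refl => exact subset_rfl
  | step _ ih => exact ih.trans Set.subset_union_left

private theorem ball_finite {A : Type} [Group A] {S : Set A} (hS : S.Finite) (m : ℕ) :
    (ball S m).Finite := by
  induction m with
  | zero => exact Set.finite_singleton 1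
  | succ m ih => exact ih.union (ih.image2 _ hS)

private theorem ball_mul {A : Type} [Group A] (S : Set A) {m m' : ℕ} {a b : A} (ha : a ∈ ball S m)
    (hb : b ∈ ball S m') : a * b ∈ ball S (m + m') := by
  induction m' generalizing b with
  | zero =>
    have h : b = 1 := hb
    rw [h, mul_one]
    exact ha
  | succ m' ih =>
    rcases hb with hb | ⟨c, hc, s, hs, rfl⟩
    · exact Or.inl (ih hb)
    · exact Or.inr ⟨a * c, ih hc, s, hs, mul_assoc a c s⟩

private theorem ball_exists {A : Type} [Group A] {S : Set A} (hgen : Subgroup.closure S = ⊤)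
    (hinv : ∀ s ∈ S, s⁻¹ ∈ S) (a : A) : ∃ m, a ∈ ball S m := by
  have h : a ∈ Subgroup.closure S := by
    rw [hgen]
    exact Subgroup.mem_top a
  induction h using Subgroup.closure_induction'' with
  | one => exact ⟨0, rfl⟩
  | mem x hx => exact ⟨1, Or.inr ⟨1, rfl, x, hx, one_mul x⟩⟩
  | inv_mem x hx => exact ⟨1, Or.inr ⟨1, rfl, x⁻¹, hinv x hx, one_mul _⟩⟩
  | mul x y _ _ hx hy =>
    obtain ⟨m, hm⟩ := hx
    obtain ⟨m', hm'⟩ := hy
    exact ⟨m + m', ball_mul S hm hm'⟩

/-- **Geometric actions give coarse embeddings.** -/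
theorem exists_ce_geom {A Λ : Type} [Group A] [Group Λ] [MulAction Λ A] {S : Set A}
    (hS : S.Finite) (hgen : Subgroup.closure S = ⊤) (hinv : ∀ s ∈ S, s⁻¹ ∈ S)
    (hadj : ∀ (x : Λ) (a s : A), s ∈ S → (x • a)⁻¹ * x • (a * s) ∈ S)
    (hstab : ∀ a : A, {x : Λ | x • a = a}.Finite)
    (horb : ∃ R : Set A, R.Finite ∧ ∀ a : A, ∃ x : Λ, ∃ r ∈ R, x • r = a) :
    ∃ f : A → Λ, CoarseEmb f := by
  classical
  obtain ⟨R, hR, hRo⟩ := horb
  choose f r hr hfr using hRo
  have hb : ∀ (m : ℕ) (x : Λ) (a b : A), a⁻¹ * b ∈ ball S m → (x • a)⁻¹ * x • b ∈ ball S m := by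
    intro m
    induction m with
    | zero =>
      intro x a b h
      have h1 : a⁻¹ * b = 1 := h
      have h2 : b = a := (inv_mul_eq_one.1 h1).symm
      subst h2
      exact inv_mul_cancel _
    | succ m ih =>
      intro x a b h
      rcases h with h | ⟨c, hc, s, hs, hcs⟩
      · exact Or.inl (ih x a b h)
      · have h1 : b = a * c * s := by
          dsimp only at hcs
          rw [mul_assoc, hcs, mul_inv_cancel_left]
        have h2 := ih x a (a * c) (by rwa [inv_mul_cancel_left])
        refine Or.inr ⟨_, h2, _, hadj x (a * c) s hs, ?_⟩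
        dsimp only
        rw [h1]
        group
  have htr : ∀ a b : A, {x : Λ | x • a = b}.Finite := by
    intro a b
    by_cases h : ∃ y : Λ, y • a = b
    · obtain ⟨y, hy⟩ := h
      refine ((hstab a).image (y * ·)).subset ?_
      rintro x hx
      refine ⟨y⁻¹ * x, ?_, mul_inv_cancel_left y x⟩
      show (y⁻¹ * x) • a = a
      have hx' : x • a = b := hx
      rw [mul_smul, hx', ← hy, inv_smul_smul]
    · refine Set.finite_empty.subset ?_
      intro x hx
      exact h ⟨x, hx⟩
  refine ⟨f, fun a => ?_, fun x => ?_⟩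
  · obtain ⟨m, hm⟩ := ball_exists hgen hinv a
    have h1 : (⋃ p ∈ Set.image2 (fun u v => (u * v : A)) R (ball S m), ⋃ q ∈ R,
        {x : Λ | x • q = p}).Finite :=
      (hR.image2 _ (ball_finite hS m)).biUnion fun p _ => hR.biUnion fun q _ => htr q p
    refine h1.subset ?_
    rintro x ⟨g, rfl⟩
    have h2 : ((f g)⁻¹ • g) = r g := by rw [inv_smul_eq_iff, hfr]
    have h3 := hb m (f g)⁻¹ g (g * a) (by rwa [inv_mul_cancel_left])
    rw [h2] at h3
    refine Set.mem_biUnion ⟨r g, hr g, _, h3, rfl⟩ (Set.mem_biUnion (hr (g * a)) ?_)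
    show ((f g)⁻¹ * f (g * a)) • r (g * a) = r g * ((r g)⁻¹ * (f g)⁻¹ • (g * a))
    rw [mul_smul, hfr, mul_inv_cancel_left]
  · -- a ball which contains the differences of `r` and `x • r'`
    have h1 : ∃ m, ∀ p ∈ R, ∀ q ∈ R, p⁻¹ * x • q ∈ ball S m := by
      have h2 : (Set.image2 (fun p q => p⁻¹ * x • q) R R).Finite := hR.image2 _ hR
      have h3 : ∀ a : A, ∃ m, a ∈ ball S m := ball_exists hgen hinv
      choose N hN using h3
      obtain ⟨m, hm⟩ := (h2.image N).bddAbove
      refine ⟨m, fun p hp q hq => ball_mono S (hm ⟨_, ⟨p, hp, q, hq, rfl⟩, rfl⟩) (hN _)⟩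
    obtain ⟨m, hm⟩ := h1
    refine (ball_finite hS m).subset ?_
    rintro a ⟨g, hg⟩
    have h2 := hb m (f g) (r g) (x • r (g * a)) (hm _ (hr g) _ (hr (g * a)))
    rw [hfr, ← hg, ← mul_smul, mul_inv_cancel_left, hfr, inv_mul_cancel_left] at h2
    exact h2

end Pool.Agent.H10.CI
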