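import Pool.Agent.H10.CI.Psi
import Pool.Agent.H65.RM.Height

/-!
# Coarse version of theorem M: intersection numbers

`exists_inter_coarse`: the group `A` with the commuting elements `e w` is coarsely embedded into a group `Λ` which
acts properly on an acyclic homology manifold; then `A` has intersection numbers.
-/

set_option autoImplicit false
set_option linter.unusedSectionVars false

open Finset Pointwise

namespace Pool.Agent.H10.CI

open Pool.Agent.H37.TM Pool.Agent.H65.RM

variable {A Λ W U : Type} [Group A] [Group Λ] [DecidableEq W] [DecidableEq U] [MulAction Λ U]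

/-- the cochain of the translated cube -/
theorem al_act (Ψ : A × Finset W → (Finset U × Finset U →₀ ZMod 2)) (h : Λ) (c : A × Finset W)
    (t : Finset U) : al Ψ c (h • t) = ∑ v ∈ t, act h⁻¹ (Ψ c) ({v}, t) := by
  classical
  unfold al
  have hsm : h • t = t.map ⟨fun u => h • u, MulAction.injective h⟩ := by
    rw [Finset.map_eq_image]
    rfl
  conv_lhs => rw [hsm]
  rw [Finset.sum_map]
  refine sum_congr rfl fun v _ => ?_
  rw [← hsm]
  have h1 : (({(⟨fun u => h • u, MulAction.injective h⟩ : U ↪ U) v}, h • t) :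
      Finset U × Finset U) = h • (({v}, t) : Finset U × Finset U) := by
    change _ = (h • ({v} : Finset U), h • t)
    rw [smul_finset_singleton]
    rfl
  rw [h1]
  have h2 : Ψ c = act h (act h⁻¹ (Ψ c)) := (act_inv h (Ψ c)).symm
  conv_lhs => rw [h2]
  unfold act
  exact Finsupp.mapDomain_apply (MulAction.injective h) _ _

/-- only finitely many relative positions of two cubes have nonzero intersection numbers -/
theorem HH_finC [Fintype W] {O : SimpleGraph W} {e : W → A} {K B : Set (Finset U)} {n : ℕ}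
    {Ψ : A × Finset W → (Finset U × Finset U →₀ ZMod 2)} {ht : U → ℕ} (hM : Mfd K B n)
    (hΨ : IsPsiC O e K B n Ψ) (hA : PAct Λ K B) {f : A → Λ} (hf : CoarseEmb f)
    (hfin : ∀ s : Finset W, {x | ∃ g : A, act (f g)⁻¹ (Ψ (g, s)) = x}.Finite) :
    ∃ E : Finset A, ∀ (g : A) (s : Finset W) (g' : A) (s' : Finset W),
      O.IsClique (s : Set W) → O.IsClique (s' : Set W) → HH K B n ht Ψ g s g' s' ≠ 0 →
      g⁻¹ * g' ∈ E := by
  classical
  -- the vertices of the simplices in the supports of the translated chains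
  let S : Set U := {u | ∃ (s : Finset W) (g : A), O.IsClique (s : Set W) ∧ ∃ t : Finset U,
    al Ψ (g, s) (f g • t) ≠ 0 ∧ u ∈ t}
  have hS : S.Finite := by
    have h1 : {x : Finset U × Finset U →₀ ZMod 2 | ∃ (s : Finset W) (g : A),
        act (f g)⁻¹ (Ψ (g, s)) = x}.Finite := by
      have h2 : {x : Finset U × Finset U →₀ ZMod 2 | ∃ (s : Finset W) (g : A),
          act (f g)⁻¹ (Ψ (g, s)) = x} ⊆ ⋃ s ∈ (Set.univ : Set (Finset W)),
            {x | ∃ g : A, act (f g)⁻¹ (Ψ (g, s)) = x} := by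
        rintro x ⟨s, g, h⟩
        exact Set.mem_biUnion (Set.mem_univ s) ⟨g, h⟩
      exact (Set.finite_univ.biUnion fun s _ => hfin s).subset h2
    refine (h1.biUnion fun x _ => x.support.finite_toSet.biUnion fun c _ =>
      c.2.finite_toSet).subset ?_
    rintro u ⟨s, g, hs, t, hne, hu⟩
    rw [al_act] at hne
    obtain ⟨v, _, hv⟩ := exists_ne_zero_of_sum_ne_zero hne
    exact Set.mem_biUnion (show act (f g)⁻¹ (Ψ (g, s)) ∈ {x : Finset U × Finset U →₀ ZMod 2 |
      ∃ (s : Finset W) (g : A), act (f g)⁻¹ (Ψ (g, s)) = x} from ⟨s, g, rfl⟩)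
      (Set.mem_biUnion (mem_coe.2 (Finsupp.mem_support_iff.2 hv)) (mem_coe.2 hu))
  have hSK : ∀ u ∈ S, {u} ∈ K := by
    rintro u ⟨s, g, hs, t, hne, hu⟩
    have h1 := al_supp hΨ hs hne
    have h2 : f g • ({u} : Finset U) ∈ K := by
      refine hM.down _ h1.1 _ ?_ ((singleton_nonempty u).smul_finset)
      exact Finset.smul_finset_subset_smul_finset (singleton_subset_iff.2 hu)
    exact (smul_mem_iff hA (f g) {u}).1 h2
  have h3 : {h : Λ | ∃ u ∈ S, ∃ u' ∈ S, ∃ t ∈ K, u ∈ t ∧ h • u' ∈ t}.Finite := by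
    have h4 : ∀ u ∈ S, {w | ∃ t ∈ K, u ∈ t ∧ w ∈ t}.Finite := by
      intro u hu
      have h7 : {w | ∃ t ∈ K, u ∈ t ∧ w ∈ t} ⊆
          ⋃ t ∈ {t | t ∈ K ∧ {u} ⊆ t}, ((t : Finset U) : Set U) := by
        rintro w ⟨t, ht1, ht2, ht3⟩
        exact Set.mem_biUnion (show t ∈ {t | t ∈ K ∧ {u} ⊆ t} from
          ⟨ht1, singleton_subset_iff.2 ht2⟩) ht3
      exact ((hM.locfin _ (hSK u hu)).biUnion fun t _ => t.finite_toSet).subset h7
    refine Set.Finite.subset (hS.biUnion fun u hu => hS.biUnion fun u' hu' =>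
      (h4 u hu).biUnion fun w _ => hA.proper u' w (hSK u' hu')) ?_
    rintro h ⟨u, hu, u', hu', t, ht1, ht2, ht3⟩
    exact Set.mem_biUnion hu (Set.mem_biUnion hu' (Set.mem_biUnion
      (show h • u' ∈ {w | ∃ t ∈ K, u ∈ t ∧ w ∈ t} from ⟨t, ht1, ht2, ht3⟩) rfl))
  refine ⟨(hf.prop_fin h3).toFinset, fun g s g' s' hs hs' hne => ?_⟩
  rw [Set.Finite.mem_toFinset]
  refine ⟨g, ?_⟩
  rw [mul_inv_cancel_left]
  unfold HH at hne
  split_ifs at hne with hc
  · -- a top simplex with a nonzero cup product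
    have h5 : ∃ t, (if Top K B n t then cup ht (n + 1 - (s.card + s'.card)) (al Ψ (g, s))
        (al Ψ (g', s')) t else 0) ≠ 0 := by
      by_contra hcon
      push Not at hcon
      apply hne
      unfold cI
      rw [finsum_congr hcon, finsum_zero]
    obtain ⟨t, htne⟩ := h5
    by_cases hT : Top K B n t
    · rw [if_pos hT] at htne
      obtain ⟨x, hx, x', hx', h6, h7⟩ := cup_ne htne
      obtain ⟨u, hu⟩ := hM.ne x (al_supp hΨ hs h6).1
      obtain ⟨u', hu'⟩ := hM.ne x' (al_supp hΨ hs' h7).1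
      refine ⟨(f g)⁻¹ • u, ⟨s, g, hs, (f g)⁻¹ • x, ?_, smul_mem_smul_finset hu⟩,
        (f g')⁻¹ • u', ⟨s', g', hs', (f g')⁻¹ • x', ?_, smul_mem_smul_finset hu'⟩,
        (f g)⁻¹ • t, hA.K_mem (f g)⁻¹ t hT.1, smul_mem_smul_finset (hx hu), ?_⟩
      · rwa [smul_inv_smul]
      · rwa [smul_inv_smul]
      · rw [← mul_smul, mul_assoc, mul_inv_cancel, mul_one]
        exact smul_mem_smul_finset (hx' hu')
    · exact absurd (if_neg hT) htne
  · exact absurd rfl hne

/-- **Intersection numbers from a coarse embedding into a group which acts properly on a homology manifold.** -/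
theorem exists_inter_coarse [Fintype W] (O : SimpleGraph W) (e : W → A)
    (hc : ∀ u w, O.Adj u w → e u * e w = e w * e u) {K B : Set (Finset U)} {n : ℕ}
    (hM : Mfd K B n) (hK : Acyc K) (hA : PAct Λ K B) {f : A → Λ} (hf : CoarseEmb f) :
    ∃ H : A → Finset W → A → Finset W → ZMod 2, Inter O e n H := by
  obtain ⟨Ψ, hΨ, hfin⟩ := exists_psiC O e hc hM hK hA hf
  obtain ⟨ht, hinj⟩ := exists_height hM hK
  exact ⟨HH K B n ht Ψ, ⟨fun g s g' s' hs hs' => HH_rel hM hK hinj hΨ g s g' s' hs hs',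
    fun g s g' s' _ _ h => by
      unfold HH
      rw [if_neg (by omega)], HH_one hM hΨ, HH_finC hM hΨ hA hf hfin⟩⟩

/-! ### Examples of coarse embeddings -/

theorem CoarseEmb.hom {f : A →* Λ} (hf : Function.Injective f) : CoarseEmb (f : A → Λ) where
  lip a := by
    refine (Set.finite_singleton (f a)).subset ?_
    rintro x ⟨g, rfl⟩
    rw [map_mul, inv_mul_cancel_left]
    rfl
  prop x := by
    refine Set.Subsingleton.finite ?_
    rintro a ⟨g, hg⟩ b ⟨h, hh⟩
    rw [map_mul, inv_mul_cancel_left] at hg hh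
    exact hf (hg.trans hh.symm)

/-- homomorphisms with finite kernel -/
theorem CoarseEmb.hom_finite {f : A →* Λ} (hf : Set.Finite {a : A | f a = 1}) :
    CoarseEmb (f : A → Λ) where
  lip a := by
    refine (Set.finite_singleton (f a)).subset ?_
    rintro x ⟨g, rfl⟩
    rw [map_mul, inv_mul_cancel_left]
    rfl
  prop x := by
    by_cases h : ∃ a : A, f a = x
    · obtain ⟨a, ha⟩ := h
      refine (hf.image (a * ·)).subset ?_
      rintro b ⟨g, hg⟩
      rw [map_mul, inv_mul_cancel_left] at hg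
      refine ⟨a⁻¹ * b, ?_, mul_inv_cancel_left a b⟩
      show f (a⁻¹ * b) = 1
      rw [map_mul, map_inv, ha, hg, inv_mul_cancel]
    · refine Set.finite_empty.subset ?_
      rintro b ⟨g, hg⟩
      rw [map_mul, inv_mul_cancel_left] at hg
      exact h ⟨b, hg⟩

/-- composition -/
theorem CoarseEmb.comp {Δ : Type} [Group Δ] {f : A → Λ} {g : Λ → Δ} (hg : CoarseEmb g)
    (hf : CoarseEmb f) : CoarseEmb (g ∘ f) where
  lip a := by
    refine ((hf.lip a).biUnion fun x _ => hg.lip x).subset ?_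
    rintro y ⟨h, rfl⟩
    refine Set.mem_biUnion ⟨h, rfl⟩ ⟨f h, ?_⟩
    rw [mul_inv_cancel_left]
    rfl
  prop y := by
    refine ((hg.prop y).biUnion fun x _ => hf.prop x).subset ?_
    rintro a ⟨h, rfl⟩
    refine Set.mem_biUnion (x := (f h)⁻¹ * f (h * a)) ⟨f h, ?_⟩ ⟨h, rfl⟩
    rw [mul_inv_cancel_left]
    rfl

end Pool.Agent.H10.CI
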