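import Pool.Agent.H10.CI.Al

/-!
# Coarse version of theorem M: the intersection numbers of the cubes
-/

set_option autoImplicit false
set_option linter.unusedSectionVars false

open Finset Pointwise

namespace Pool.Agent.H10.CI

open Pool.Agent.H37.TM Pool.Agent.H65.RM

variable {A W U : Type} [Group A] [DecidableEq W] [DecidableEq U]
  {O : SimpleGraph W} {e : W → A} {K B : Set (Finset U)} {n : ℕ}
  {Ψ : A × Finset W → (Finset U × Finset U →₀ ZMod 2)} {ht : U → ℕ}

/-- the simplices which contain a simplex in the support of the cochain of a cube -/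
theorem fin_up (hM : Mfd K B n) (hΨ : IsPsiC O e K B n Ψ) (g : A) {s : Finset W}
    (hs : O.IsClique (s : Set W)) : {t | t ∈ K ∧ ∃ f ⊆ t, al Ψ (g, s) f ≠ 0}.Finite := by
  have h1 : {t | t ∈ K ∧ ∃ f ⊆ t, al Ψ (g, s) f ≠ 0} =
      ⋃ f ∈ {f | al Ψ (g, s) f ≠ 0}, {t | t ∈ K ∧ f ⊆ t} := by
    ext t
    simp only [Set.mem_ofPred_eq, Set.mem_iUnion, exists_prop]
    constructor
    · rintro ⟨h2, f, h3, h4⟩
      exact ⟨f, h4, h2, h3⟩
    · rintro ⟨f, h4, h2, h3⟩
      exact ⟨h2, f, h3, h4⟩
  rw [h1]
  exact (al_fin (g, s)).biUnion fun f hf => hM.locfin f (al_supp hΨ hs hf).1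

/-- the summation of a finite sum -/
theorem fin_cup (hM : Mfd K B n) (hΨ : IsPsiC O e K B n Ψ) (g g' : A) {s s' : Finset W}
    (hs : O.IsClique (s : Set W)) (j : ℕ) : (Function.support fun t => open Classical in
      if Top K B n t then cup ht j (al Ψ (g, s)) (al Ψ (g', s')) t else 0).Finite := by
  classical
  refine (fin_up hM hΨ g hs).subset fun t h => ?_
  rw [Function.mem_support] at h
  by_cases h1 : Top K B n t
  · rw [if_pos h1] at h
    obtain ⟨f, hf, f', _, h2, _⟩ := cup_ne h
    exact ⟨h1.1, f, hf, h2⟩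
  · exact absurd (if_neg h1) h

theorem fin_cup' (hM : Mfd K B n) (hΨ : IsPsiC O e K B n Ψ) (g g' : A) {s s' : Finset W}
    (hs' : O.IsClique (s' : Set W)) (j : ℕ) : (Function.support fun t => open Classical in
      if Top K B n t then cup ht j (al Ψ (g, s)) (al Ψ (g', s')) t else 0).Finite := by
  classical
  refine (fin_up hM hΨ g' hs').subset fun t h => ?_
  rw [Function.mem_support] at h
  by_cases h1 : Top K B n t
  · rw [if_pos h1] at h
    obtain ⟨f, hf, f', hf', _, h2⟩ := cup_ne h
    exact ⟨h1.1, f', hf', h2⟩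
  · exact absurd (if_neg h1) h

/-- the relation for the sums of cup products -/
theorem rel_aux (hM : Mfd K B n) (hK : Acyc K) (hinj : ∀ s ∈ K, Set.InjOn ht (s : Set U))
    (hΨ : IsPsiC O e K B n Ψ) (g g' : A) {s s' : Finset W} (hs : O.IsClique (s : Set W))
    (hs' : O.IsClique (s' : Set W)) :
    ∑ w ∈ s, (cI K B n ht (n + 1 - (s.card + s'.card) + 1) (al Ψ (g, s.erase w)) (al Ψ (g', s')) +
        cI K B n ht (n + 1 - (s.card + s'.card) + 1) (al Ψ (g * e w, s.erase w))
          (al Ψ (g', s'))) +
      ∑ w ∈ s', (cI K B n ht (n + 1 - (s.card + s'.card) + 1) (al Ψ (g, s))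
          (al Ψ (g', s'.erase w)) +
        cI K B n ht (n + 1 - (s.card + s'.card) + 1) (al Ψ (g, s))
          (al Ψ (g' * e w, s'.erase w))) +
      (cI K B n ht (n + 1 - (s.card + s'.card)) (al Ψ (g, s)) (al Ψ (g', s')) +
        cI K B n ht (n + 1 - (s.card + s'.card)) (al Ψ (g', s')) (al Ψ (g, s))) = 0 := by
  classical
  obtain ⟨m, hm⟩ : ∃ m, n + 1 - (s.card + s'.card) = m := ⟨_, rfl⟩
  rw [hm]
  set x := al Ψ (g, s) with hx
  set y := al Ψ (g', s') with hy
  -- the cochain `ω`
  let ω : Finset U → ZMod 2 := fun r => if r ∈ K ∧ r.card = n then cup ht (m + 1) x y r else 0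
  have hω1 : ∀ r, ω r ≠ 0 → r ∈ K ∧ r.card = n ∧ cup ht (m + 1) x y r ≠ 0 := by
    intro r hr
    by_cases h : r ∈ K ∧ r.card = n
    · refine ⟨h.1, h.2, ?_⟩
      rwa [show ω r = cup ht (m + 1) x y r from if_pos h] at hr
    · exact absurd (if_neg h) hr
  have hω : ∀ r, ω r ≠ 0 → r ∈ K ∧ r ∉ B ∧ r.card = n := by
    intro r hr
    obtain ⟨h1, h2, h3⟩ := hω1 r hr
    refine ⟨h1, fun h4 => ?_, h2⟩
    obtain ⟨f, hf, f', hf', h5, h6⟩ := cup_ne h3
    have h7 := al_supp hΨ hs h5
    exact h7.2.1 (hM.bd_down r h4 f hf (hM.ne f h7.1))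
  have hfin : {r | ω r ≠ 0}.Finite := by
    refine (fin_up hM hΨ g hs).subset fun r hr => ?_
    obtain ⟨h1, h2, h3⟩ := hω1 r hr
    obtain ⟨f, hf, f', hf', h5, h6⟩ := cup_ne h3
    exact ⟨h1, f, hf, h5⟩
  have h1 := stokes hM ω hfin hω
  -- the value on a top simplex
  have h2 : ∀ t, Top K B n t → cob ω t =
      ∑ w ∈ s, (cup ht (m + 1) (al Ψ (g, s.erase w)) y t +
        cup ht (m + 1) (al Ψ (g * e w, s.erase w)) y t) +
      ∑ w ∈ s', (cup ht (m + 1) x (al Ψ (g', s'.erase w)) t +
        cup ht (m + 1) x (al Ψ (g' * e w, s'.erase w)) t) +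
      (cup ht m x y t + cup ht m y x t) := by
    intro t htT
    have h3 : cob ω t = cob (cup ht (m + 1) x y) t := by
      unfold cob
      refine sum_congr rfl fun v hv => ?_
      by_cases h4 : (t.erase v).Nonempty
      · have h5 : t.erase v ∈ K := hM.down t htT.1 _ (erase_subset v t) h4
        have h6 : (t.erase v).card = n := by
          rw [card_erase_of_mem hv, htT.2.2]
          rfl
        exact if_pos ⟨h5, h6⟩
      · rw [not_nonempty_iff_eq_empty] at h4
        rw [h4]
        have h5 : ω ∅ = 0 := by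
          refine if_neg fun h => ?_
          exact absurd (hM.ne ∅ h.1) Finset.not_nonempty_empty
        rw [h5]
        symm
        refine cup_zero_l fun f hf => ?_
        rw [subset_empty.1 hf]
        exact al_empty _
    have hK' : ∀ f ⊆ t, f ∈ K ∨ f = ∅ := by
      intro f hf
      rcases f.eq_empty_or_nonempty with h | h
      · exact Or.inr h
      · exact Or.inl (hM.down t htT.1 f hf h)
    rw [h3, cob_cup ht m x y t (hinj t htT.1)]
    congr 1
    congr 1
    · rw [cup_congr (ht := ht) (fun f hf => cob_al hM hK hΨ hs (hK' f hf)) (fun f _ => rfl),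
        cup_sum_l]
      exact sum_congr rfl fun w _ => cup_add_l _ _ _ _
    · rw [cup_congr (ht := ht) (fun f _ => rfl) (fun f hf => cob_al hM hK hΨ hs' (hK' f hf)),
        cup_sum_r]
      exact sum_congr rfl fun w _ => cup_add_r _ _ _ _
  -- the sum over the top simplices
  have h3 : ∀ t, (if Top K B n t then cob ω t else 0) =
      ∑ w ∈ s, ((if Top K B n t then cup ht (m + 1) (al Ψ (g, s.erase w)) y t else 0) +
        (if Top K B n t then cup ht (m + 1) (al Ψ (g * e w, s.erase w)) y t else 0)) +
      ∑ w ∈ s', ((if Top K B n t then cup ht (m + 1) x (al Ψ (g', s'.erase w)) t else 0) +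
        (if Top K B n t then cup ht (m + 1) x (al Ψ (g' * e w, s'.erase w)) t else 0)) +
      ((if Top K B n t then cup ht m x y t else 0) +
        (if Top K B n t then cup ht m y x t else 0)) := by
    intro t
    by_cases h : Top K B n t
    · simp only [if_pos h]
      exact h2 t h
    · simp only [if_neg h, add_zero, sum_const_zero]
  rw [finsum_congr h3] at h1
  have f1 : ∀ w, (Function.support fun t =>
      if Top K B n t then cup ht (m + 1) (al Ψ (g, s.erase w)) y t else 0).Finite := fun w =>
    fin_cup' (ht := ht) hM hΨ g g' hs' (m + 1)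
  have f2 : ∀ w, (Function.support fun t =>
      if Top K B n t then cup ht (m + 1) (al Ψ (g * e w, s.erase w)) y t else 0).Finite := fun w =>
    fin_cup' (ht := ht) hM hΨ (g * e w) g' hs' (m + 1)
  have f3 : ∀ w, (Function.support fun t =>
      if Top K B n t then cup ht (m + 1) x (al Ψ (g', s'.erase w)) t else 0).Finite := fun w =>
    fin_cup (ht := ht) hM hΨ g g' hs (m + 1)
  have f4 : ∀ w, (Function.support fun t =>
      if Top K B n t then cup ht (m + 1) x (al Ψ (g' * e w, s'.erase w)) t else 0).Finite :=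
    fun w => fin_cup (ht := ht) hM hΨ g (g' * e w) hs (m + 1)
  have f5 : (Function.support fun t => if Top K B n t then cup ht m x y t else 0).Finite :=
    fin_cup (ht := ht) hM hΨ g g' hs m
  have f6 : (Function.support fun t => if Top K B n t then cup ht m y x t else 0).Finite :=
    fin_cup (ht := ht) hM hΨ g' g hs' m
  have g1 : ∀ w, (Function.support fun t =>
      (if Top K B n t then cup ht (m + 1) (al Ψ (g, s.erase w)) y t else 0) +
        (if Top K B n t then cup ht (m + 1) (al Ψ (g * e w, s.erase w)) y t else 0)).Finite :=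
    fun w => ((f1 w).union (f2 w)).subset (Function.support_add _ _)
  have g2 : ∀ w, (Function.support fun t =>
      (if Top K B n t then cup ht (m + 1) x (al Ψ (g', s'.erase w)) t else 0) +
        (if Top K B n t then cup ht (m + 1) x (al Ψ (g' * e w, s'.erase w)) t else 0)).Finite :=
    fun w => ((f3 w).union (f4 w)).subset (Function.support_add _ _)
  have g3 : (Function.support fun t => ∑ w ∈ s,
      ((if Top K B n t then cup ht (m + 1) (al Ψ (g, s.erase w)) y t else 0) +
        (if Top K B n t then cup ht (m + 1) (al Ψ (g * e w, s.erase w)) y t else 0))).Finite := by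
    refine Set.Finite.subset (Set.Finite.biUnion s.finite_toSet fun w _ => g1 w) fun t h => ?_
    obtain ⟨w, hw, hne⟩ := exists_ne_zero_of_sum_ne_zero h
    exact Set.mem_biUnion hw hne
  have g4 : (Function.support fun t => ∑ w ∈ s',
      ((if Top K B n t then cup ht (m + 1) x (al Ψ (g', s'.erase w)) t else 0) +
        (if Top K B n t then cup ht (m + 1) x (al Ψ (g' * e w, s'.erase w)) t else 0))).Finite := by
    refine Set.Finite.subset (Set.Finite.biUnion s'.finite_toSet fun w _ => g2 w) fun t h => ?_
    obtain ⟨w, hw, hne⟩ := exists_ne_zero_of_sum_ne_zero h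
    exact Set.mem_biUnion hw hne
  have g5 : (Function.support fun t => ∑ w ∈ s,
      ((if Top K B n t then cup ht (m + 1) (al Ψ (g, s.erase w)) y t else 0) +
        (if Top K B n t then cup ht (m + 1) (al Ψ (g * e w, s.erase w)) y t else 0)) +
      ∑ w ∈ s', ((if Top K B n t then cup ht (m + 1) x (al Ψ (g', s'.erase w)) t else 0) +
        (if Top K B n t then cup ht (m + 1) x (al Ψ (g' * e w, s'.erase w)) t else 0))).Finite :=
    (g3.union g4).subset (Function.support_add _ _)
  have g6 : (Function.support fun t => (if Top K B n t then cup ht m x y t else 0) +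
        (if Top K B n t then cup ht m y x t else 0)).Finite :=
    (f5.union f6).subset (Function.support_add _ _)
  rw [finsum_add_distrib g5 g6, finsum_add_distrib g3 g4, finsum_add_distrib f5 f6,
    finsum_sum_comm s _ fun w _ => g1 w, finsum_sum_comm s' _ fun w _ => g2 w] at h1
  rw [← h1]
  congr 1
  congr 1
  · refine sum_congr rfl fun w _ => ?_
    rw [finsum_add_distrib (f1 w) (f2 w)]
    rfl
  · refine sum_congr rfl fun w _ => ?_
    rw [finsum_add_distrib (f3 w) (f4 w)]
    rfl

/-- order zero -/
theorem cI_zeroC (c c' : A × Finset W) : cI K B n ht 0 (al Ψ c) (al Ψ c') = 0 := by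
  classical
  unfold cI
  have h : ∀ t : Finset U, (if Top K B n t then cup ht 0 (al Ψ c) (al Ψ c') t else 0) = 0 := by
    intro t
    split_ifs
    · unfold cup
      refine sum_eq_zero fun C hC => ?_
      rw [mem_powersetCard] at hC
      have h1 : C = ∅ := card_eq_zero.1 hC.2
      subst h1
      have h2 : face2 ht ∅ t = ∅ := by
        unfold face2 below
        rw [filter_eq_empty_iff]
        intro v _
        simp
      rw [h2, al_empty, mul_zero]
    · rfl
  rw [finsum_congr h, finsum_zero]

/-- the relation -/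
theorem HH_rel (hM : Mfd K B n) (hK : Acyc K) (hinj : ∀ s ∈ K, Set.InjOn ht (s : Set U))
    (hΨ : IsPsiC O e K B n Ψ) (g : A) (s : Finset W) (g' : A) (s' : Finset W)
    (hs : O.IsClique (s : Set W)) (hs' : O.IsClique (s' : Set W)) :
    ∑ w ∈ s, (HH K B n ht Ψ g (s.erase w) g' s' + HH K B n ht Ψ (g * e w) (s.erase w) g' s') +
      ∑ w ∈ s', (HH K B n ht Ψ g s g' (s'.erase w) + HH K B n ht Ψ g s (g' * e w) (s'.erase w)) =
      HH K B n ht Ψ g s g' s' + HH K B n ht Ψ g' s' g s := by
  have key : ∀ a b : ZMod 2, a + b = 0 → a = b := by decide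
  by_cases hc : s.card + s'.card ≤ n + 1
  · have h1 := rel_aux (ht := ht) hM hK hinj hΨ g g' hs hs'
    apply key
    rw [← h1]
    congr 1
    · congr 1
      · refine sum_congr rfl fun w hw => ?_
        have h2 : (s.erase w).card + 1 = s.card := card_erase_add_one hw
        have h3 : n + 1 - ((s.erase w).card + s'.card) = n + 1 - (s.card + s'.card) + 1 := by
          omega
        unfold HH
        rw [if_pos (by omega), if_pos (by omega), h3]
      · refine sum_congr rfl fun w hw => ?_
        have h2 : (s'.erase w).card + 1 = s'.card := card_erase_add_one hw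
        have h3 : n + 1 - (s.card + (s'.erase w).card) = n + 1 - (s.card + s'.card) + 1 := by
          omega
        unfold HH
        rw [if_pos (by omega), if_pos (by omega), h3]
    · have h4 : s'.card + s.card = s.card + s'.card := add_comm _ _
      unfold HH
      rw [h4]
      by_cases h2 : s.card + s'.card ≤ n
      · rw [if_pos h2, if_pos h2]
      · have h3 : n + 1 - (s.card + s'.card) = 0 := by omega
        rw [if_neg h2, if_neg h2, h3, cI_zeroC, cI_zeroC]
  · unfold HH
    rw [sum_eq_zero, sum_eq_zero, if_neg (by omega), if_neg (by omega)]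
    · intro w hw
      have h2 : (s'.erase w).card + 1 = s'.card := card_erase_add_one hw
      rw [if_neg (by omega), if_neg (by omega), add_zero]
    · intro w hw
      have h2 : (s.erase w).card + 1 = s.card := card_erase_add_one hw
      rw [if_neg (by omega), if_neg (by omega), add_zero]

/-- the self-intersection of a vertex -/
theorem HH_one (hM : Mfd K B n) (hΨ : IsPsiC O e K B n Ψ) : HH K B n ht Ψ 1 ∅ 1 ∅ = 1 := by
  classical
  have h0 : O.IsClique ((∅ : Finset W) : Set W) := by
    rw [coe_empty]
    exact Set.pairwise_empty _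
  unfold HH cI
  rw [card_empty, add_zero, if_pos (Nat.zero_le n), Nat.sub_zero, ← sum_al hM hΨ (1 : A)]
  refine finsum_congr fun t => ?_
  by_cases h : Top K B n t
  · rw [if_pos h]
    unfold cup
    rw [← h.2.2, powersetCard_self, sum_singleton]
    have h1 : face1 ht t t = t := filter_true_of_mem fun v hv => Or.inl hv
    have h2 : face2 ht t t = t := filter_true_of_mem fun v hv => Or.inl hv
    rw [h1, h2]
    have h3 : ∀ a : ZMod 2, a * a = a := by decide
    exact h3 _
  · rw [if_neg h]
    symm
    by_contra hne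
    obtain ⟨h1, h2, h3⟩ := al_supp hΨ h0 hne
    rw [card_empty, add_zero] at h3
    exact h ⟨h1, h2, h3⟩

end Pool.Agent.H10.CI
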