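import Pool.Agent.H10.CI.CDefs
import Pool.Agent.H10.CI.Man
import Pool.Agent.H65.RM.Int

/-!
# Coarse version of theorem M: the chain map

`CoarseEmb f`: the map `f : A → Λ` of groups is a coarse embedding (for the left invariant coarse structures).
-/

set_option autoImplicit false
set_option linter.unusedSectionVars false

open Finset Pointwise

namespace Pool.Agent.H10.CI

open Pool.Agent.H37.TM Pool.Agent.H65.RM

variable {A Λ W U : Type} [Group A] [Group Λ] [DecidableEq W] [DecidableEq U] [MulAction Λ U]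

/-- the action on the chains of pairs -/
noncomputable def act (h : Λ) (x : Finset U × Finset U →₀ ZMod 2) : Finset U × Finset U →₀ ZMod 2 :=
  x.mapDomain (h • ·)

theorem act_act (h h' : Λ) (x : Finset U × Finset U →₀ ZMod 2) :
    act h (act h' x) = act (h * h') x := by
  unfold act
  rw [← Finsupp.mapDomain_comp]
  congr 1
  funext c
  exact (mul_smul h h' c).symm

theorem act_one (x : Finset U × Finset U →₀ ZMod 2) : act (1 : Λ) x = x := by
  unfold act
  have h : (fun c : Finset U × Finset U => (1 : Λ) • c) = id := funext fun c => one_smul Λ c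
  rw [h, Finsupp.mapDomain_id]

theorem act_inv (h : Λ) (x : Finset U × Finset U →₀ ZMod 2) : act h (act h⁻¹ x) = x := by
  rw [act_act, mul_inv_cancel, act_one]

theorem inv_act (h : Λ) (x : Finset U × Finset U →₀ ZMod 2) : act h⁻¹ (act h x) = x := by
  rw [act_act, inv_mul_cancel, act_one]

theorem act_add (h : Λ) (x y : Finset U × Finset U →₀ ZMod 2) :
    act h (x + y) = act h x + act h y := Finsupp.mapDomain_add

theorem act_sum (h : Λ) {ι : Type} (s : Finset ι) (x : ι → (Finset U × Finset U →₀ ZMod 2)) :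
    act h (∑ i ∈ s, x i) = ∑ i ∈ s, act h (x i) := Finsupp.mapDomain_finsetSum

open Classical in
/-- a filling of the cycles -/
noncomputable def fil (K B : Set (Finset U)) (n i : ℕ) (x : Finset U × Finset U →₀ ZMod 2) :
    Finset U × Finset U →₀ ZMod 2 :=
  if h : ∃ y ∈ TN K B n (i + 1), bdT K n y = x then h.choose else 0

theorem fil_spec {K B : Set (Finset U)} {n : ℕ} (hM : Mfd K B n) (hK : Acyc K) {i : ℕ}
    {x : Finset U × Finset U →₀ ZMod 2} (hx : x ∈ TN K B n i) (h0 : bdT K n x = 0) :
    fil K B n i x ∈ TN K B n (i + 1) ∧ bdT K n (fil K B n i x) = x := by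
  classical
  have h := tot_exact hM (hK.lt i) i le_rfl x hx h0
  unfold fil
  rw [dif_pos h]
  exact h.choose_spec

/-- the boundary of the cubes of dimension `m + 1`, for a map on the cubes of dimension `m` -/
noncomputable def bps (e : W → A) (ψ : A → Finset W → (Finset U × Finset U →₀ ZMod 2)) (g : A)
    (s : Finset W) : Finset U × Finset U →₀ ZMod 2 :=
  ∑ w ∈ s, (ψ g (s.erase w) + ψ (g * e w) (s.erase w))

/-- the chain map, by recursion on the dimension -/
noncomputable def psi (K B : Set (Finset U)) (n : ℕ) (e : W → A) (f : A → Λ) :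
    ℕ → A → Finset W → (Finset U × Finset U →₀ ZMod 2)
  | 0, g, _ => act (f g) (fil K B n 0 (Finsupp.single (∅, ∅) 1))
  | m + 1, g, s => act (f g) (fil K B n (m + 1) (act (f g)⁻¹ (bps e (psi K B n e f m) g s)))

theorem base_mem {K B : Set (Finset U)} {n : ℕ} :
    Finsupp.single ((∅ : Finset U), (∅ : Finset U)) (1 : ZMod 2) ∈ TN K B n 0 := by
  unfold TN
  exact Finsupp.single_mem_supported (ZMod 2) (1 : ZMod 2)
    (show ((∅ : Finset U), (∅ : Finset U)) ∈ TCell K B n 0 from rfl)

theorem base_bd {K : Set (Finset U)} {n : ℕ} :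
    bdT K n (Finsupp.single ((∅ : Finset U), (∅ : Finset U)) (1 : ZMod 2)) = 0 := by
  change lin (bdE K n) (Finsupp.single ((∅ : Finset U), (∅ : Finset U)) (1 : ZMod 2)) = 0
  rw [lin_single]
  unfold bdE
  rw [if_pos rfl]

theorem act_mem {K B : Set (Finset U)} {n : ℕ} (hA : PAct Λ K B) (h : Λ) {i : ℕ}
    {x : Finset U × Finset U →₀ ZMod 2} (hx : x ∈ TN K B n i) : act h x ∈ TN K B n i :=
  tn_smul hA h i x hx

theorem act_bd {K B : Set (Finset U)} {n : ℕ} (hA : PAct Λ K B) (h : Λ)
    (x : Finset U × Finset U →₀ ZMod 2) : bdT K n (act h x) = act h (bdT K n x) :=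
  bdT_smul hA h x

theorem act_base (h : Λ) :
    act h (Finsupp.single ((∅ : Finset U), (∅ : Finset U)) (1 : ZMod 2)) =
      Finsupp.single ((∅ : Finset U), (∅ : Finset U)) 1 := by
  unfold act
  rw [Finsupp.mapDomain_single]
  congr 1

theorem psi_spec {K B : Set (Finset U)} {n : ℕ} {O : SimpleGraph W} {e : W → A}
    (hc : ∀ u w, O.Adj u w → e u * e w = e w * e u) (hM : Mfd K B n) (hK : Acyc K)
    (hA : PAct Λ K B) (f : A → Λ) (m : ℕ) : ∀ (g : A) (s : Finset W), O.IsClique (s : Set W) →
    s.card = m → psi K B n e f m g s ∈ TN K B n (m + 1) ∧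
      bdT K n (psi K B n e f m g s) =
        (if s = ∅ then Finsupp.single (∅, ∅) 1 else 0) + bps e (psi K B n e f (m - 1)) g s := by
  induction m with
  | zero =>
    intro g s _ hs
    have h0 : s = ∅ := card_eq_zero.1 hs
    subst h0
    obtain ⟨h1, h2⟩ := fil_spec hM hK (i := 0) (base_mem (K := K) (B := B) (n := n)) base_bd
    refine ⟨act_mem hA (f g) h1, ?_⟩
    rw [if_pos rfl]
    unfold psi bps
    rw [act_bd hA, h2, act_base, sum_empty, add_zero]
  | succ m ih =>
    intro g s hs hcard
    have hne : s ≠ ∅ := by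
      rintro rfl
      simp at hcard
    -- the faces
    have hfc : ∀ w ∈ s, O.IsClique ((s.erase w : Finset W) : Set W) ∧ (s.erase w).card = m := by
      intro w hw
      refine ⟨hs.subset (by exact_mod_cast erase_subset w s), ?_⟩
      rw [card_erase_of_mem hw, hcard]
      rfl
    have h1 : bps e (psi K B n e f m) g s ∈ TN K B n (m + 1) := by
      unfold bps
      refine Submodule.sum_mem _ fun w hw => Submodule.add_mem _ ?_ ?_
      · exact (ih g _ (hfc w hw).1 (hfc w hw).2).1
      · exact (ih (g * e w) _ (hfc w hw).1 (hfc w hw).2).1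
    have h2 : bdT K n (bps e (psi K B n e f m) g s) = 0 := by
      unfold bps
      rw [map_sum]
      have h3 : ∀ w ∈ s, bdT K n (psi K B n e f m g (s.erase w) +
          psi K B n e f m (g * e w) (s.erase w)) = ∑ u ∈ s.erase w,
          ((psi K B n e f (m - 1) g ((s.erase w).erase u) +
            psi K B n e f (m - 1) (g * e u) ((s.erase w).erase u)) +
          (psi K B n e f (m - 1) (g * e w) ((s.erase w).erase u) +
            psi K B n e f (m - 1) (g * e w * e u) ((s.erase w).erase u))) := by
        intro w hw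
        rw [map_add, (ih g _ (hfc w hw).1 (hfc w hw).2).2,
          (ih (g * e w) _ (hfc w hw).1 (hfc w hw).2).2]
        have h4 : ∀ a b c : Finset U × Finset U →₀ ZMod 2, (a + b) + (a + c) = b + c := by
          intro a b c
          have h5 : (a + b) + (a + c) = (a + a) + (b + c) := by abel
          rw [h5, add_self_mod, zero_add]
        rw [h4]
        unfold bps
        rw [← sum_add_distrib]
      rw [sum_congr rfl h3]
      refine sum_pairs_zero s _ fun u hu w hw huw => ?_
      have h4 : O.Adj u w := hs hu hw huw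
      rw [Finset.erase_right_comm, mul_assoc g (e u) (e w), hc u w h4, ← mul_assoc g (e w) (e u)]
      abel
    obtain ⟨h5, h6⟩ := fil_spec hM hK (i := m + 1) (act_mem hA (f g)⁻¹ h1)
      (show bdT K n (act (f g)⁻¹ (bps e (psi K B n e f m) g s)) = 0 by
        rw [act_bd hA, h2]
        exact Finsupp.mapDomain_zero)
    refine ⟨act_mem hA (f g) h5, ?_⟩
    rw [if_neg hne, zero_add]
    have h7 : psi K B n e f (m + 1) g s =
        act (f g) (fil K B n (m + 1) (act (f g)⁻¹ (bps e (psi K B n e f m) g s))) := rfl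
    rw [h7, act_bd hA, h6, act_inv]
    rfl

/-- control of the supports -/
theorem psi_fin {K B : Set (Finset U)} {n : ℕ} {e : W → A} {f : A → Λ}
    (hf : ∀ w, {x : Λ | ∃ g : A, (f g)⁻¹ * f (g * e w) = x}.Finite) (m : ℕ) :
    ∀ s : Finset W, {x | ∃ g : A, act (f g)⁻¹ (psi K B n e f m g s) = x}.Finite := by
  induction m with
  | zero =>
    intro s
    refine (Set.finite_singleton (fil K B n 0 (Finsupp.single ((∅ : Finset U), (∅ : Finset U))
      1))).subset ?_
    rintro x ⟨g, rfl⟩
    show act (f g)⁻¹ (act (f g) _) = _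
    rw [inv_act]
  | succ m ih =>
    intro s
    -- the boundaries
    have h1 : ∀ w, {x | ∃ g : A, act (f g)⁻¹ (psi K B n e f m (g * e w) (s.erase w)) = x}.Finite := by
      intro w
      refine ((hf w).image2 act (ih (s.erase w))).subset ?_
      rintro x ⟨g, rfl⟩
      refine ⟨_, ⟨g, rfl⟩, _, ⟨g * e w, rfl⟩, ?_⟩
      rw [act_act]
      congr 1
      group
    have h2 : ∀ t : Finset W, {x | ∃ g : A, act (f g)⁻¹
        (∑ w ∈ t, (psi K B n e f m g (s.erase w) + psi K B n e f m (g * e w) (s.erase w))) =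
        x}.Finite := by
      intro t
      induction t using Finset.induction_on with
      | empty =>
        refine (Set.finite_singleton (0 : Finset U × Finset U →₀ ZMod 2)).subset ?_
        rintro x ⟨g, rfl⟩
        rw [sum_empty]
        exact Finsupp.mapDomain_zero
      | insert w t hw iht =>
        refine (((ih (s.erase w)).image2 (· + ·) (h1 w)).image2 (· + ·) iht).subset ?_
        rintro x ⟨g, rfl⟩
        refine ⟨_, ⟨_, ⟨g, rfl⟩, _, ⟨g, rfl⟩, rfl⟩, _, ⟨g, rfl⟩, ?_⟩
        rw [sum_insert hw, act_add, act_add]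
    refine ((h2 s).image (fil K B n (m + 1))).subset ?_
    rintro x ⟨g, rfl⟩
    refine ⟨_, ⟨g, rfl⟩, ?_⟩
    show _ = act (f g)⁻¹ (act (f g) _)
    rw [inv_act]
    rfl

/-- **The chain map.** -/
theorem exists_psiC {K B : Set (Finset U)} {n : ℕ} (O : SimpleGraph W) (e : W → A)
    (hc : ∀ u w, O.Adj u w → e u * e w = e w * e u) (hM : Mfd K B n) (hK : Acyc K)
    (hA : PAct Λ K B) {f : A → Λ} (hf : CoarseEmb f) :
    ∃ Ψ : A × Finset W → (Finset U × Finset U →₀ ZMod 2), IsPsiC O e K B n Ψ ∧
      ∀ s : Finset W, {x | ∃ g : A, act (f g)⁻¹ (Ψ (g, s)) = x}.Finite := by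
  refine ⟨fun c => psi K B n e f c.2.card c.1 c.2, ⟨fun g s hs => ?_, fun g s hs => ?_⟩,
    fun s => psi_fin (fun w => hf.lip (e w)) s.card s⟩
  · exact (psi_spec hc hM hK hA f s.card g s hs rfl).1
  · dsimp only
    rw [(psi_spec hc hM hK hA f s.card g s hs rfl).2, lin_bdO]
    congr 1
    unfold bps
    refine sum_congr rfl fun w hw => ?_
    dsimp only
    rw [card_erase_of_mem hw]

end Pool.Agent.H10.CI
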